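import Pool.Agent.W84.FP.Defs
import Pool.Agent.W78.GA.Basic

/-! Project FP: the path lemma. -/

set_option autoImplicit false

namespace Pool.Agent.W362.FP

open Finset Filter
open Pool.Agent.H376R2.MR
open Pool.Agent.W78.GA Pool.Agent.W78.GC Pool.Agent.W84.FP

lemma bez (q a x y x' y' : ℤ) (h4 : (4 : ℤ) ∣ q) (hy : q ∣ y) (hx : IsCoprime x q)
    (hx4 : (4 : ℤ) ∣ x - 1) (hy' : q ∣ y') (hx' : IsCoprime x' q) (hx4' : (4 : ℤ) ∣ x' - 1)
    (hp : IsCoprime x y) (hp' : IsCoprime x' y') :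
    ∃ r s : ℤ, r * y - s * x = 1 ∧ q ∣ r + a * s ∧ (4 : ℤ) ∣ (r * y' - s * x') - 1 ∧
      IsCoprime (r * y' - s * x') (q * (x * y' - y * x')) := by
  obtain ⟨A, B, hAB⟩ := hp
  obtain ⟨y1, hy1⟩ := hy
  obtain ⟨y1', hy1'⟩ := hy'
  obtain ⟨C, D, hCD⟩ := hx
  obtain ⟨A', B', hAB'⟩ := hp'
  -- C x + D q = 1, so C (x + a y) + (D - C a y1) q = 1
  set k : ℤ := -C * (B - a * A) with hk
  have e1 : (B + k * x) * y - (-A + k * y) * x = 1 := by linear_combination hAB
  have hq : q ∣ (B + k * x) + a * (-A + k * y) := by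
    refine ⟨(B - a * A) * (D - C * a * y1), ?_⟩
    have : C * (x + a * y) = 1 - D * q + C * a * (q * y1) := by
      rw [hy1]; linear_combination hCD
    have h2 : (B + k * x) + a * (-A + k * y) = (B - a * A) * (1 - C * (x + a * y)) := by
      rw [hk]; ring
    rw [h2, this]; ring
  have hs : IsCoprime (-A + k * y) q := by
    refine ⟨-x, (B + k * x) * y1, ?_⟩
    have : (B + k * x) * y = (B + k * x) * y1 * q := by rw [hy1]; ring
    linear_combination e1 - this
  refine ⟨B + k * x, -A + k * y, e1, hq, ?_, ?_⟩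
  · obtain ⟨g1, hg1⟩ := h4
    obtain ⟨g2, hg2⟩ := hx4
    obtain ⟨g3, hg3⟩ := hx4'
    set r := B + k * x
    set s := -A + k * y
    -- s = r y - 1 - s (x - 1)
    refine ⟨r * g1 * y1' - r * g1 * y1 + s * g2 - s * g3, ?_⟩
    have hy2 : y = 4 * g1 * y1 := by rw [hy1, hg1]
    have hy2' : y' = 4 * g1 * y1' := by rw [hy1', hg1]
    have hx2 : x = 1 + 4 * g2 := by linarith
    have hx2' : x' = 1 + 4 * g3 := by linarith
    rw [hy2'] 
    have e1' : r * (4 * g1 * y1) - s * (1 + 4 * g2) = 1 := by rw [← hy2, ← hx2]; exact e1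
    rw [hx2']
    linear_combination e1'
  · set r := B + k * x
    set s := -A + k * y
    have hRq : IsCoprime (r * y' - s * x') q := by
      have h1 : IsCoprime (-(s * x')) q := (IsCoprime.mul_left hs hx').neg_left
      have h2 : r * y' - s * x' = -(s * x') + q * (r * y1') := by rw [hy1']; ring
      rw [h2]
      exact h1.add_mul_left_left _
    have hRd : IsCoprime (r * y' - s * x') (x * y' - y * x') := by
      refine ⟨A' * x + B' * y, -(A' * r) - B' * s, ?_⟩
      have f1 : x' = (r * y' - s * x') * x - (x * y' - y * x') * r := by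
        linear_combination (-x') * e1
      have f2 : y' = (r * y' - s * x') * y - (x * y' - y * x') * s := by
        linear_combination (-y') * e1
      have : A' * ((r * y' - s * x') * x - (x * y' - y * x') * r) +
          B' * ((r * y' - s * x') * y - (x * y' - y * x') * s) = 1 := by
        rw [← f1, ← f2]; exact hAB'
      linear_combination this
    exact IsCoprime.mul_right hRq hRd

lemma two_sq (p : ℕ) (hp : p.Prime) (h1 : p % 4 = 1) (x y : ℤ) (hd : (p : ℤ) ∣ x ^ 2 + y ^ 2) :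
    ∃ α β : ℤ, α ^ 2 + β ^ 2 = p ∧ (p : ℤ) ∣ α * x + β * y ∧ (p : ℤ) ∣ α * y - β * x := by
  haveI : Fact p.Prime := ⟨hp⟩
  obtain ⟨m, n, hmn⟩ := Nat.Prime.sq_add_sq (p := p) (by omega)
  have hmn' : (m : ℤ) ^ 2 + (n : ℤ) ^ 2 = p := by exact_mod_cast hmn
  have hpp : Prime (p : ℤ) := Nat.prime_iff_prime_int.1 hp
  have hprod : (p : ℤ) ∣ ((m : ℤ) * x + n * y) * (m * x - n * y) := by
    have h2 : ((m : ℤ) * x + n * y) * (m * x - n * y) =
        (m : ℤ) ^ 2 * (x ^ 2 + y ^ 2) - y ^ 2 * p := by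
      rw [← hmn']; ring
    rw [h2]
    exact dvd_sub (Dvd.dvd.mul_left hd _) (Dvd.intro_left _ rfl)
  have key : ∀ α β : ℤ, α ^ 2 + β ^ 2 = p → (p : ℤ) ∣ α * x + β * y →
      (p : ℤ) ∣ α * y - β * x := by
    intro α β hab h
    have h3 : (p : ℤ) ∣ (α * y - β * x) ^ 2 := by
      have h4 : (α * y - β * x) ^ 2 = p * (x ^ 2 + y ^ 2) - (α * x + β * y) * (α * x + β * y) := by
        rw [← hab]; ring
      rw [h4]
      exact dvd_sub (Dvd.intro _ rfl) (Dvd.dvd.mul_left h _)
    exact hpp.dvd_of_dvd_pow h3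
  rcases hpp.dvd_or_dvd hprod with h | h
  · exact ⟨m, n, hmn', h, key m n hmn' h⟩
  · have h5 : (m : ℤ) ^ 2 + (-(n : ℤ)) ^ 2 = p := by rw [neg_sq]; exact hmn'
    have h6 : (p : ℤ) ∣ (m : ℤ) * x + (-(n : ℤ)) * y := by
      have : (m : ℤ) * x + (-(n : ℤ)) * y = m * x - n * y := by ring
      rw [this]; exact h
    exact ⟨m, -n, h5, h6, key _ _ h5 h6⟩

lemma pos_of {a b : ℤ} (ha : 0 < a) (h : 0 < a * b) : 0 < b := (mul_pos_iff_of_pos_left ha).1 h

lemma nmZ (z : Gi) : (nm z : ℤ) = z.re ^ 2 + z.im ^ 2 := by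
  have := nm_cast (t := 0) (c := 1) (by norm_num) z
  rw [this]; ring

lemma glpm (z : Gi) : gl z = 1 ∨ gl z = -1 := lam_eq _

theorem path : S_PATH := by
  intro q a w w' hq h4 hw hw' hc hc' hdt
  obtain ⟨hy, hx, hx4⟩ := hc
  obtain ⟨hy', hx', hx4'⟩ := hc'
  have h4z : (4 : ℤ) ∣ (q : ℤ) := by exact_mod_cast h4
  have hcop : IsCoprime w.re w.im := Int.isCoprime_iff_gcd_eq_one.2 hw
  have hcop' : IsCoprime w'.re w'.im := Int.isCoprime_iff_gcd_eq_one.2 hw'
  obtain ⟨r, s, hrs, hqa, hR4, hRc⟩ := bez q a w.re w.im w'.re w'.im h4z hy hx hx4 hy' hx' hx4'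
    hcop hcop'
  have hdtw : dt w w' = w.re * w'.im - w.im * w'.re := rfl
  refine ⟨r * w'.im - s * w'.re, hR4, by rw [hdtw]; exact hRc, ?_⟩
  intro p hp hpR hpn hip hip' hgl e he
  rw [hdtw] at hdt hpR
  obtain ⟨x, y⟩ := w
  obtain ⟨x', y'⟩ := w'
  simp only at hdt hpR hrs hqa hR4 hRc hy hx hx4 hy' hx' hx4' hcop hcop'
  set δ : ℤ := x * y' - y * x' with hδ
  set R : ℤ := r * y' - s * x' with hR
  obtain ⟨T, hT⟩ := hpR
  -- v
  set v : Gi := ⟨r + q * T * x, s + q * T * y⟩ with hv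
  have hnw : ((nm (⟨x, y⟩ : Gi) : ℕ) : ℤ) = x ^ 2 + y ^ 2 := nmZ _
  have hnw' : ((nm (⟨x', y'⟩ : Gi) : ℕ) : ℤ) = x' ^ 2 + y' ^ 2 := nmZ _
  have hnv : ((nm v : ℕ) : ℤ) = (r + q * T * x) ^ 2 + (s + q * T * y) ^ 2 := nmZ _
  have hipw : ip (⟨x, y⟩ : Gi) ⟨x', y'⟩ = x * x' + y * y' := by simp [ip]
  rw [hipw, hnw] at hip
  rw [hipw, hnw'] at hip'
  have hp0 : (0 : ℤ) < p := by exact_mod_cast hp.pos
  have hdvw : (r + q * T * x) * y - (s + q * T * y) * x = 1 := by linear_combination hrs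
  have hdvw' : (r + q * T * x) * y' - (s + q * T * y) * x' = p := by
    have : (p : ℤ) = R + q * δ * T := by linarith
    rw [this, hR, hδ]; ring
  -- δ v = p w - w'
  have hδ1 : δ * (r + q * T * x) = p * x - x' := by
    have : (p : ℤ) = R + q * δ * T := by linarith
    rw [this, hR, hδ]
    linear_combination (-x') * hrs
  have hδ2 : δ * (s + q * T * y) = p * y - y' := by
    have : (p : ℤ) = R + q * δ * T := by linarith
    rw [this, hR, hδ]
    linear_combination (-y') * hrs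
  have hq1 : (q : ℤ) ∣ (r + q * T * x) + a * (s + q * T * y) := by
    have : (r + q * T * x) + a * (s + q * T * y) = (r + a * s) + q * (T * (x + a * y)) := by ring
    rw [this]
    exact dvd_add hqa (Dvd.intro _ rfl)
  have hdpos : (0 : ℤ) < δ := hdt
  have hdv : (1 : ℤ) ≤ δ := by linarith
  set v1 : ℤ := r + q * T * x with hv1
  set v2 : ℤ := s + q * T * y with hv2
  have hipv : 0 < v1 * x + v2 * y := by
    have h1 : δ * (v1 * x + v2 * y) = p * (x ^ 2 + y ^ 2) - (x * x' + y * y') := by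
      linear_combination x * hδ1 + y * hδ2
    have h2 : 0 < δ * (v1 * x + v2 * y) := by rw [h1]; linarith
    exact pos_of hdpos h2
  have hipv' : 0 < v1 * x' + v2 * y' := by
    have h1 : δ * (v1 * x' + v2 * y') = p * (x * x' + y * y') - (x' ^ 2 + y' ^ 2) := by
      linear_combination x' * hδ1 + y' * hδ2
    have h2 : 0 < δ * (v1 * x' + v2 * y') := by rw [h1]; linarith
    exact pos_of hdpos h2
  have hqv : (q : ℤ) ∣ v1 * x + v2 * y - a := by
    have : v1 * x + v2 * y - a = x * (v1 + a * v2) + y * (v2 - a * v1) := by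
      linear_combination a * hdvw
    rw [this]
    exact dvd_add (Dvd.dvd.mul_left hq1 _) (Dvd.dvd.mul_right hy _)
  have hqv' : (q : ℤ) ∣ v1 * x' + v2 * y' - a * p := by
    have : v1 * x' + v2 * y' - a * p = x' * (v1 + a * v2) + y' * (v2 - a * v1) := by
      linear_combination a * hdvw'
    rw [this]
    exact dvd_add (Dvd.dvd.mul_left hq1 _) (Dvd.dvd.mul_right hy' _)
  have hipww : 0 < x * x' + y * y' := by
    have h1 : 0 < (p : ℤ) * (x * x' + y * y') := by linarith [sq_nonneg x', sq_nonneg y']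
    exact pos_of hp0 h1
  have hnvle : v1 ^ 2 + v2 ^ 2 ≤ p ^ 2 * (x ^ 2 + y ^ 2) + (x' ^ 2 + y' ^ 2) := by
    have h1 : δ ^ 2 * (v1 ^ 2 + v2 ^ 2) =
        p ^ 2 * (x ^ 2 + y ^ 2) - 2 * p * (x * x' + y * y') + (x' ^ 2 + y' ^ 2) := by
      have e1 : δ ^ 2 * (v1 ^ 2 + v2 ^ 2) = (δ * v1) ^ 2 + (δ * v2) ^ 2 := by ring
      rw [e1, hδ1, hδ2]; ring
    have h2 : v1 ^ 2 + v2 ^ 2 ≤ δ ^ 2 * (v1 ^ 2 + v2 ^ 2) := by
      have h5 : 1 ≤ δ ^ 2 := one_le_pow₀ hdv
      exact le_mul_of_one_le_left (by positivity) h5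
    have h3 : 0 < 2 * (p : ℤ) * (x * x' + y * y') := by positivity
    linarith
  have hnvle' : nm v ≤ p ^ 2 * nm (⟨x, y⟩ : Gi) + nm (⟨x', y'⟩ : Gi) := by
    have : ((nm v : ℕ) : ℤ) ≤ ((p ^ 2 * nm (⟨x, y⟩ : Gi) + nm (⟨x', y'⟩ : Gi) : ℕ) : ℤ) := by
      push_cast
      rw [hnv, hnw, hnw']
      exact hnvle
    exact_mod_cast this
  by_cases hgv : gl v = e
  · refine ⟨v, ⟨x, y⟩, ?_, ?_, ?_, hgv, rfl, hnvle', by omega, Or.inl rfl⟩
    · show v1 * y - v2 * x = 1
      exact hdvw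
    · have : ip v (⟨x, y⟩ : Gi) = v1 * x + v2 * y := by simp [ip, hv]
      rw [this]; exact hipv
    · have : ip v (⟨x, y⟩ : Gi) = v1 * x + v2 * y := by simp [ip, hv]
      rw [this]; exact hqv
  · -- the other sign
    have hge : gl v = -e := by
      rcases glpm v with h | h <;> rcases he with he | he
      · exact absurd (h.trans he.symm) hgv
      · rw [h, he]; norm_num
      · rw [h, he]
      · exact absurd (h.trans he.symm) hgv
    have hp4 : p % 4 = 1 := by
      have h1 : (4 : ℤ) ∣ (p : ℤ) - 1 := by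
        have h2 : (p : ℤ) - 1 = (R - 1) + q * (δ * T) := by linarith
        rw [h2]
        exact dvd_add hR4 (Dvd.dvd.mul_right h4z _)
      omega
    have hpn' : (p : ℤ) ∣ x' ^ 2 + y' ^ 2 := by
      rw [← hnw']; exact_mod_cast hpn
    obtain ⟨α, β, hab, hd1, hd2⟩ := two_sq p hp hp4 x' y' hpn'
    obtain ⟨A, B, hAB⟩ := hcop'
    -- v = k w' + p (B, -A)
    have hk1 : v1 = (A * v1 + B * v2) * x' + p * B := by
      linear_combination (-v1) * hAB + B * hdvw'
    have hk2 : v2 = (A * v1 + B * v2) * y' - p * A := by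
      linear_combination (-v2) * hAB - A * hdvw'
    have hd3 : (p : ℤ) ∣ α * v1 + β * v2 := by
      have : α * v1 + β * v2 = (A * v1 + B * v2) * (α * x' + β * y') + p * (α * B - β * A) := by
        linear_combination α * hk1 + β * hk2
      rw [this]
      exact dvd_add (Dvd.dvd.mul_left hd1 _) (Dvd.intro _ rfl)
    have hd4 : (p : ℤ) ∣ α * v2 - β * v1 := by
      have : α * v2 - β * v1 = (A * v1 + B * v2) * (α * y' - β * x') +
          p * (-(α * A) - β * B) := by
        linear_combination α * hk2 - β * hk1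
      rw [this]
      exact dvd_add (Dvd.dvd.mul_left hd2 _) (Dvd.intro _ rfl)
    obtain ⟨u1, hu1⟩ := hd1
    obtain ⟨u2, hu2⟩ := hd2
    obtain ⟨z1, hz1⟩ := hd3
    obtain ⟨z2, hz2⟩ := hd4
    have hpne : (p : ℤ) ≠ 0 := hp0.ne'
    -- w' = π u
    have hx1 : x' = α * u1 - β * u2 := by
      have : (p : ℤ) * x' = p * (α * u1 - β * u2) := by
        have e : (p : ℤ) * x' = (α ^ 2 + β ^ 2) * x' := by rw [hab]
        rw [e]; linear_combination α * hu1 - β * hu2
      exact mul_left_cancel₀ hpne this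
    have hy1 : y' = α * u2 + β * u1 := by
      have : (p : ℤ) * y' = p * (α * u2 + β * u1) := by
        have e : (p : ℤ) * y' = (α ^ 2 + β ^ 2) * y' := by rw [hab]
        rw [e]; linear_combination α * hu2 + β * hu1
      exact mul_left_cancel₀ hpne this
    have hv1' : v1 = α * z1 - β * z2 := by
      have : (p : ℤ) * v1 = p * (α * z1 - β * z2) := by
        have e : (p : ℤ) * v1 = (α ^ 2 + β ^ 2) * v1 := by rw [hab]
        rw [e]; linear_combination α * hz1 - β * hz2
      exact mul_left_cancel₀ hpne this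
    have hv2' : v2 = α * z2 + β * z1 := by
      have : (p : ℤ) * v2 = p * (α * z2 + β * z1) := by
        have e : (p : ℤ) * v2 = (α ^ 2 + β ^ 2) * v2 := by rw [hab]
        rw [e]; linear_combination α * hz2 + β * hz1
      exact mul_left_cancel₀ hpne this
    have hdz : z1 * u2 - z2 * u1 = 1 := by
      have : (p : ℤ) * (z1 * u2 - z2 * u1) = p * 1 := by
        have e : v1 * y' - v2 * x' = (α ^ 2 + β ^ 2) * (z1 * u2 - z2 * u1) := by
          rw [hv1', hv2', hx1, hy1]; ring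
        rw [← hab, ← e, hdvw', hab, mul_one]
      exact mul_left_cancel₀ hpne this
    have hiz : v1 * x' + v2 * y' = p * (z1 * u1 + z2 * u2) := by
      rw [hv1', hv2', hx1, hy1, ← hab]; ring
    have hipos : 0 < z1 * u1 + z2 * u2 := by
      rw [hiz] at hipv'
      exact pos_of hp0 hipv'
    have hpq : IsCoprime (q : ℤ) (p : ℤ) := by
      have h1 : IsCoprime R (q : ℤ) := hRc.of_mul_right_left
      have h2 : (p : ℤ) = R + q * (δ * T) := by linarith
      rw [h2]
      exact (h1.add_mul_left_left _).symm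
    have hqz : (q : ℤ) ∣ z1 * u1 + z2 * u2 - a := by
      have h1 : (q : ℤ) ∣ (z1 * u1 + z2 * u2 - a) * p := by
        have h2 : (z1 * u1 + z2 * u2 - a) * p = v1 * x' + v2 * y' - a * p := by
          rw [hiz]; ring
        rw [h2]; exact hqv'
      exact hpq.dvd_of_dvd_mul_right h1
    set π : Gi := ⟨α, β⟩ with hπ
    set u : Gi := ⟨u1, u2⟩ with hu
    set z : Gi := ⟨z1, z2⟩ with hz
    have hnπ : nm π = p := by
      have : ((nm π : ℕ) : ℤ) = p := by rw [nmZ]; exact hab
      exact_mod_cast this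
    have hwu : (⟨x', y'⟩ : Gi) = π * u := by
      apply QuadraticAlgebra.ext
      · rw [QuadraticAlgebra.re_mul]
        simp only [hπ, hu]
        linear_combination hx1
      · rw [QuadraticAlgebra.im_mul]
        simp only [hπ, hu]
        linear_combination hy1
    have hvz : v = π * z := by
      apply QuadraticAlgebra.ext
      · rw [QuadraticAlgebra.re_mul]
        simp only [hπ, hz, hv]
        linear_combination hv1'
      · rw [QuadraticAlgebra.im_mul]
        simp only [hπ, hz, hv]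
        linear_combination hv2'
    have hD : (0 : ℤ) ^ 2 < 4 * 1 := by norm_num
    have hnu : nm (⟨x', y'⟩ : Gi) = p * nm u := by rw [hwu, nm_mul, hnπ]
    have hnz : nm v = p * nm z := by rw [hvz, nm_mul, hnπ]
    have hz0 : nm z ≠ 0 := by
      intro h
      have h' := (nm_eq_zero (t := 0) (c := 1) hD).1 h
      have h1 : z1 = 0 := congrArg QuadraticAlgebra.re h'
      have h2 : z2 = 0 := congrArg QuadraticAlgebra.im h'
      rw [h1, h2] at hdz
      simp at hdz
    have hu0 : nm u ≠ 0 := by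
      intro h
      have h' := (nm_eq_zero (t := 0) (c := 1) hD).1 h
      have h1 : u1 = 0 := congrArg QuadraticAlgebra.re h'
      have h2 : u2 = 0 := congrArg QuadraticAlgebra.im h'
      rw [h1, h2] at hdz
      simp at hdz
    have hglz : gl v = - gl z := by
      show lam (nm v) = - lam (nm z)
      rw [hnz, lam_mul hp.ne_zero hz0, lam_prime hp]; ring
    have hglu : gl (⟨x', y'⟩ : Gi) = - gl u := by
      show lam (nm (⟨x', y'⟩ : Gi)) = - lam (nm u)
      rw [hnu, lam_mul hp.ne_zero hu0, lam_prime hp]; ring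
    refine ⟨z, u, ?_, ?_, ?_, ?_, ?_, ?_, ?_, Or.inr ⟨π, hnπ, hwu⟩⟩
    · exact hdz
    · have : ip z u = z1 * u1 + z2 * u2 := by simp [ip, hz, hu]
      rw [this]; exact hipos
    · have : ip z u = z1 * u1 + z2 * u2 := by simp [ip, hz, hu]
      rw [this]; exact hqz
    · linarith
    · rcases glpm (⟨x, y⟩ : Gi) with h | h <;> rcases glpm u with h' | h'
      · rw [h, h']
      · exfalso; apply hgl; rw [h, hglu, h']; norm_num
      · exfalso; apply hgl; rw [h, hglu, h']
      · rw [h, h']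
    · have : nm z ≤ nm v := by rw [hnz]; exact Nat.le_mul_of_pos_left _ hp.pos
      exact this.trans hnvle'
    · have : nm u ≤ nm (⟨x', y'⟩ : Gi) := by rw [hnu]; exact Nat.le_mul_of_pos_left _ hp.pos
      omega

end Pool.Agent.W362.FP
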